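import Pool.Agent.N162.CV.Pl

set_option autoImplicit false

/-! Project CV (helper162), task RT: the ratio of two relations on a plane curve. -/

open MvPolynomial Module

noncomputable section

namespace Pool.Agent.N401.CV

open Pool.Agent.N162.CV

section

variable {Ω ι : Type} [Field Ω]

/-- the polynomials of degree at most `k` -/
abbrev Rk (Ω : Type) [Field Ω] (k : ℕ) : Submodule Ω (MvPolynomial (Fin 2) Ω) :=
  restrictTotalDegree (Fin 2) Ω k

/-- evaluation at the points -/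
def ev (S : Finset ι) (p : ι → Fin 2 → Ω) : MvPolynomial (Fin 2) Ω →ₗ[Ω] (S → Ω) where
  toFun P i := eval (p i.1) P
  map_add' P Q := by
    funext i
    simp
  map_smul' c P := by
    funext i
    simp

theorem ann {T : Type} [Fintype T] (W1 W2 : Submodule Ω (T → Ω))
    (h : ∀ ν ∈ W2, ∀ w ∈ W1, ∑ i, ν i * w i = 0) :
    finrank Ω W1 + finrank Ω W2 ≤ Fintype.card T := by
  classical
  let f : (T → Ω) →ₗ[Ω] Module.Dual Ω (T → Ω) :=
    LinearMap.mk₂ Ω (fun ν w => ∑ i, ν i * w i)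
      (fun a b c => by simp only [Pi.add_apply, add_mul, Finset.sum_add_distrib])
      (fun a b c => by simp only [Pi.smul_apply, smul_eq_mul, mul_assoc, Finset.mul_sum])
      (fun a b c => by simp only [Pi.add_apply, mul_add, Finset.sum_add_distrib])
      (fun a b c => by
        simp only [Pi.smul_apply, smul_eq_mul, Finset.mul_sum]
        exact Finset.sum_congr rfl fun i _ => by ring)
  have hf : Function.Injective f := by
    rw [← LinearMap.ker_eq_bot, LinearMap.ker_eq_bot']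
    intro ν hν
    funext j
    have h1 := LinearMap.congr_fun hν (Pi.single j 1)
    have h2 : f ν (Pi.single j 1) = ν j := by
      show ∑ i, ν i * (Pi.single j (1 : Ω) : T → Ω) i = ν j
      simp [Pi.single_apply]
    rw [h2] at h1
    simpa using h1
  have h1 : W2.map f ≤ W1.dualAnnihilator := by
    rintro x ⟨ν, hν, rfl⟩
    rw [Submodule.mem_dualAnnihilator]
    intro w hw
    exact h ν hν w hw
  have h2 : finrank Ω (W2.map f) = finrank Ω W2 :=
    (LinearEquiv.finrank_eq (Submodule.equivMapOfInjective f hf W2)).symm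
  have h3 := Submodule.finrank_mono h1
  have h4 := Subspace.finrank_add_finrank_dualAnnihilator_eq W1
  rw [Module.finrank_fintype_fun_eq_card] at h4
  omega

/-- multiplication by `G` -/
def mulG (G : MvPolynomial (Fin 2) Ω) {a b : ℕ} (h : G.totalDegree + a ≤ b) : Rk Ω a →ₗ[Ω] Rk Ω b :=
  ((LinearMap.mulLeft Ω G).domRestrict (Rk Ω a)).codRestrict (Rk Ω b) (by
    intro Q
    rw [mem_restrictTotalDegree]
    have h1 : Q.1.totalDegree ≤ a := (mem_restrictTotalDegree _ _ _).1 Q.2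
    show (G * Q.1).totalDegree ≤ b
    exact (totalDegree_mul _ _).trans (by omega))

theorem mulG_val (G : MvPolynomial (Fin 2) Ω) {a b : ℕ} (h : G.totalDegree + a ≤ b) (Q : Rk Ω a) :
    (mulG G h Q).1 = G * Q.1 := rfl

/-- a multiple of `G` of degree at most `b` is `G` times a polynomial of degree at most `a` -/
theorem div_deg {G P : MvPolynomial (Fin 2) Ω} (hG : G ≠ 0) (hd : G ∣ P) {b : ℕ}
    (hP : P.totalDegree ≤ b) (a : ℕ) (hb : b ≤ G.totalDegree + a) :
    ∃ Q : MvPolynomial (Fin 2) Ω, Q.totalDegree ≤ a ∧ P = G * Q := by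
  obtain ⟨Q, rfl⟩ := hd
  by_cases hQ : Q = 0
  · refine ⟨0, by simp, by rw [hQ]⟩
  · refine ⟨Q, ?_, rfl⟩
    rw [totalDegree_mul_of_isDomain hG hQ] at hP
    omega

end

theorem arith {F1 F2 F3 F4 r φ c g a h0 : ℕ} (hg1 : 1 ≤ g) (d1 : 2 * F1 = (g + a + 1) * (g + a + 2))
    (d2 : 2 * F2 = (a + 1) * (a + 2)) (d3 : 2 * F3 = (g + (h0 + g) + 1) * (g + (h0 + g) + 2))
    (d4 : 2 * F4 = (h0 + g + 1) * (h0 + g + 2)) (hann : r + φ ≤ c)
    (hcard : c ≤ g * (g + a + g + (h0 + g) + 4 + h0)) (hr : F1 ≤ r + F2)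
    (hr2 : F3 + F3 ≤ φ + 2 * F4) : False := by
  nlinarith [sq_nonneg g]

theorem rt_ (h : StA1) (hd : StDIM) : StRT := by
  intro Ω _ _ ι S p lam mu m h0 D G hS hinj hmu hlamR hmuR hG hGv hD hcard hm
  classical
  have hG0 : G ≠ 0 := hG.ne_zero
  obtain ⟨g, hg⟩ : ∃ g, g = G.totalDegree := ⟨_, rfl⟩
  have hg1 : 1 ≤ g := by
    by_contra hcon
    have h1 : G.totalDegree = 0 := by omega
    rw [totalDegree_eq_zero_iff_eq_C] at h1
    obtain ⟨i, hi⟩ := hS
    have h2 := hGv i hi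
    rw [h1, eval_C] at h2
    rw [h2, C_0] at h1
    exact hG0 h1
  rw [← hg] at hcard hm
  have hfin : ∀ k, FiniteDimensional Ω (Rk Ω k) := fun k => (hd Ω k).1
  have hdim : ∀ k, 2 * finrank Ω (Rk Ω k) = (k + 1) * (k + 2) := fun k => (hd Ω k).2
  -- (1)
  have hvan : ∀ P : MvPolynomial (Fin 2) Ω, P.totalDegree + g ≤ m + 2 →
      (∀ i ∈ S, eval (p i) P = 0) → G ∣ P := by
    intro P hP hPv
    by_contra hcon
    have hP0 : P ≠ 0 := fun h1 => hcon (h1 ▸ dvd_zero G)
    have hrel : IsRelPrime G P := (hG.isRelPrime_iff_not_dvd).2 hcon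
    have h1 := h Ω ι S p mu m G P hS hinj hmu hmuR hG0 hP0 hrel (fun i hi => ⟨hGv i hi, hPv i hi⟩)
    omega
  obtain ⟨s, hs⟩ : ∃ s, s = h0 + 2 * g := ⟨_, rfl⟩
  obtain ⟨k1, hk1⟩ : ∃ k1, k1 + s = m := ⟨m - s, by omega⟩
  have hk1g : g ≤ k1 := by omega
  -- the image of the polynomials of degree `≤ k1`
  let f : Rk Ω k1 →ₗ[Ω] (S → Ω) := (ev S p).domRestrict (Rk Ω k1)
  have hker : finrank Ω (LinearMap.ker f) ≤ finrank Ω (Rk Ω (k1 - g)) := by
    have hle : G.totalDegree + (k1 - g) ≤ k1 := by omega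
    have h1 : LinearMap.ker f ≤ LinearMap.range (mulG G hle) := by
      intro P hP
      rw [LinearMap.mem_ker] at hP
      have hPd : P.1.totalDegree ≤ k1 := (mem_restrictTotalDegree _ _ _).1 P.2
      have h2 : G ∣ P.1 := by
        refine hvan P.1 (by omega) fun i hi => ?_
        exact congrFun hP ⟨i, hi⟩
      obtain ⟨Q, hQ1, hQ2⟩ := div_deg hG0 h2 hPd (k1 - g) (by omega)
      refine ⟨⟨Q, (mem_restrictTotalDegree _ _ _).2 hQ1⟩, ?_⟩
      apply Subtype.ext
      rw [mulG_val, hQ2]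
    exact (Submodule.finrank_mono h1).trans (LinearMap.finrank_range_le _)
  have hrank := LinearMap.finrank_range_add_finrank_ker f
  -- the map `Φ`
  let Φ : (Rk Ω s × Rk Ω s) →ₗ[Ω] (S → Ω) :=
    { toFun := fun x i => eval (p i.1) x.1.1 * mu i.1 - eval (p i.1) x.2.1 * lam i.1
      map_add' := by
        intro x y
        funext i
        simp only [Prod.fst_add, Prod.snd_add, Submodule.coe_add, map_add, Pi.add_apply]
        ring
      map_smul' := by
        intro c x
        funext i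
        simp only [Prod.smul_fst, Prod.smul_snd, Submodule.coe_smul, smul_eval, Pi.smul_apply,
          smul_eq_mul, RingHom.id_apply]
        ring }
  have hann := ann (LinearMap.range f) (LinearMap.range Φ) (by
    rintro ν ⟨x, rfl⟩ w ⟨P, rfl⟩
    have hPd : P.1.totalDegree ≤ k1 := (mem_restrictTotalDegree _ _ _).1 P.2
    have hx1 : x.1.1.totalDegree ≤ s := (mem_restrictTotalDegree _ _ _).1 x.1.2
    have hx2 : x.2.1.totalDegree ≤ s := (mem_restrictTotalDegree _ _ _).1 x.2.2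
    have h1 := hmuR (x.1.1 * P.1) ((totalDegree_mul _ _).trans (by omega))
    have h2 := hlamR (x.2.1 * P.1) ((totalDegree_mul _ _).trans (by omega))
    have h3 : ∑ i : S, Φ x i * f P i =
        ∑ i ∈ S, mu i * eval (p i) (x.1.1 * P.1) - ∑ i ∈ S, lam i * eval (p i) (x.2.1 * P.1) := by
      rw [← Finset.sum_sub_distrib, ← Finset.sum_coe_sort S]
      refine Finset.sum_congr rfl fun i _ => ?_
      show (eval (p i.1) x.1.1 * mu i.1 - eval (p i.1) x.2.1 * lam i.1) * eval (p i.1) P.1 = _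
      rw [eval_mul, eval_mul]
      ring
    rw [h3, h1, h2, sub_zero])
  rw [Fintype.card_coe] at hann
  have hΦ := LinearMap.finrank_range_add_finrank_ker Φ
  rw [Module.finrank_prod] at hΦ
  -- the multiples of `G`
  have hle : G.totalDegree + (s - g) ≤ s := by omega
  let K : (Rk Ω (s - g) × Rk Ω (s - g)) →ₗ[Ω] (Rk Ω s × Rk Ω s) := (mulG G hle).prodMap (mulG G hle)
  have hK : finrank Ω (LinearMap.range K) ≤ 2 * finrank Ω (Rk Ω (s - g)) := by
    have h1 := LinearMap.finrank_range_le K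
    rw [Module.finrank_prod] at h1
    omega
  have hnot : ¬ LinearMap.ker Φ ≤ LinearMap.range K := by
    intro hcon
    have h1 := (Submodule.finrank_mono hcon).trans hK
    clear hK hcon
    have d1 := hdim k1
    have d2 := hdim (k1 - g)
    have d3 := hdim s
    have d4 := hdim (s - g)
    obtain ⟨a, ha⟩ : ∃ a, k1 = g + a := ⟨k1 - g, by omega⟩
    obtain ⟨b, hb⟩ : ∃ b, s = g + b := ⟨s - g, by omega⟩
    have ea : k1 - g = a := by omega
    have eb : s - g = b := by omega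
    rw [ea] at d2 hker
    rw [eb] at d4 h1
    have hb' : b = h0 + g := by omega
    have hDa : D = g + a + g + b + 4 + h0 := by omega
    subst hDa
    rw [ha] at d1
    rw [hb] at d3
    subst hb'
    have hr : finrank Ω (Rk Ω k1) ≤ finrank Ω (LinearMap.range f) + finrank Ω (Rk Ω a) := by omega
    have hr2 : finrank Ω (Rk Ω s) + finrank Ω (Rk Ω s) ≤
        finrank Ω (LinearMap.range Φ) + 2 * finrank Ω (Rk Ω (h0 + g)) := by omega
    have ha' : finrank Ω (Rk Ω (g + a)) = finrank Ω (Rk Ω k1) := by rw [ha]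
    have hb'' : finrank Ω (Rk Ω (g + (h0 + g))) = finrank Ω (Rk Ω s) := by rw [hb]
    rw [ha'] at d1
    rw [hb''] at d3
    exact arith hg1 d1 d2 d3 d4 hann hcard hr hr2
  rw [SetLike.not_le_iff_exists] at hnot
  obtain ⟨x, hx1, hx2⟩ := hnot
  rw [LinearMap.mem_ker] at hx1
  have hxe : ∀ i ∈ S, eval (p i) x.1.1 * mu i = eval (p i) x.2.1 * lam i := by
    intro i hi
    have h1 := congrFun hx1 ⟨i, hi⟩
    exact sub_eq_zero.1 h1
  have hU : x.1.1.totalDegree ≤ s := (mem_restrictTotalDegree _ _ _).1 x.1.2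
  have hV : x.2.1.totalDegree ≤ s := (mem_restrictTotalDegree _ _ _).1 x.2.2
  refine ⟨x.1.1, x.2.1, by rw [← hg, ← hs]; exact hU, by rw [← hg, ← hs]; exact hV, ?_, hxe⟩
  intro hdvd
  apply hx2
  have hUv : ∀ i ∈ S, eval (p i) x.1.1 = 0 := by
    intro i hi
    have h1 := hxe i hi
    obtain ⟨Q, hQ⟩ := hdvd
    rw [hQ, eval_mul, hGv i hi, zero_mul, zero_mul] at h1
    exact (mul_eq_zero.1 h1).resolve_right (hmu i hi)
  have hGU : G ∣ x.1.1 := hvan x.1.1 (by omega) hUv
  obtain ⟨Q1, hQ1, hQ1'⟩ := div_deg hG0 hGU hU (s - g) (by omega)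
  obtain ⟨Q2, hQ2, hQ2'⟩ := div_deg hG0 hdvd hV (s - g) (by omega)
  refine ⟨(⟨Q1, (mem_restrictTotalDegree _ _ _).2 hQ1⟩, ⟨Q2, (mem_restrictTotalDegree _ _ _).2 hQ2⟩), ?_⟩
  apply Prod.ext
  · apply Subtype.ext
    show (mulG G hle _).1 = _
    rw [mulG_val, hQ1']
    rfl
  · apply Subtype.ext
    show (mulG G hle _).1 = _
    rw [mulG_val, hQ2']
    rfl

end Pool.Agent.N401.CV
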